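import Pool.Agent.Helper23.QF.Goals

/-! Packet QF-PIG (MP_ab92ec_nt): counting words in a residue class of matrices. -/

set_option autoImplicit false

open scoped ENNReal NNReal Matrix

namespace Pool.Agent.Helper58.QF

open Pool.Agent.Helper23.QF

theorem word_pos {a b : ℕ} (ha : 0 < a) (hb : 0 < b) {w : List ℕ} (hw : Word a b w) :
    ∀ x ∈ w, 1 ≤ x := by
  intro x hx
  rcases hw x hx with h | h <;> omega

theorem word_append {a b : ℕ} {v w : List ℕ} (hv : Word a b v) (hw : Word a b w) :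
    Word a b (v ++ w) := by
  intro x hx
  rcases List.mem_append.1 hx with h | h
  · exact hv x h
  · exact hw x h

theorem word_rep {a b : ℕ} {v : List ℕ} (hv : Word a b v) (k : ℕ) :
    Word a b (List.replicate k v).flatten := by
  intro x hx
  obtain ⟨l, hl, hxl⟩ := List.mem_flatten.1 hx
  rw [List.eq_of_mem_replicate hl] at hxl
  exact hv x hxl

theorem M_rep (v : List ℕ) (k : ℕ) : M (List.replicate k v).flatten = M v ^ k := by
  induction k with
  | zero => simp [M_nil]
  | succ k ih => rw [List.replicate_succ, List.flatten_cons, M_append, ih, pow_succ']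

theorem K_append (v u : List ℕ) (hv : ∀ x ∈ v, 1 ≤ x) (hu : ∀ x ∈ u, 1 ≤ x) :
    K (v ++ u) ≤ 2 * K v * K u := by
  have h1 := M_entries v hv
  have h2 := M_entries u hu
  have h3 := M_entries v.reverse (fun x hx => hv x (List.mem_reverse.1 hx))
  rw [M_reverse] at h3
  have h4 : M v 0 1 ≤ M v 0 0 := h3.2.2.2.2.1
  unfold K
  rw [M_append, Matrix.mul_apply, Fin.sum_univ_two]
  have h5 : M v 0 1 * M u 1 0 ≤ M v 0 0 * M u 0 0 :=
    mul_le_mul h4 h2.2.2.2.2.1 h2.2.2.1 (by linarith [h1.1])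
  linarith

theorem K_pos (v : List ℕ) (hv : ∀ x ∈ v, 1 ≤ x) : 1 ≤ K v := (M_entries v hv).1

/-- Counting in a residue class. -/
theorem gPIG : GPIG := by
  intro a b s ha hb hs hyp m u0 hm hu0
  obtain ⟨c, hc, hcount⟩ := hyp
  classical
  have : NeZero m := ⟨hm.ne'⟩
  have : Fintype (Matrix (Fin 2) (Fin 2) (ZMod m)) := Fintype.ofFinite _
  let ρ : List ℕ → Matrix (Fin 2) (Fin 2) (ZMod m) := fun u =>
    (Int.castRingHom (ZMod m)).mapMatrix (M u)
  have hρ : ∀ v u, ρ (v ++ u) = ρ v * ρ u := fun v u => by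
    change (Int.castRingHom (ZMod m)).mapMatrix (M (v ++ u)) = _
    rw [M_append, map_mul]
  have hunit : ∀ u, IsUnit (ρ u) := by
    intro u
    refine (Matrix.isUnit_iff_isUnit_det _).2 ?_
    change IsUnit ((Int.castRingHom (ZMod m)).mapMatrix (M u)).det
    rw [← RingHom.map_det, M_det]
    exact ((isUnit_one.neg : IsUnit (-1 : ℤ)).pow _).map _
  set k := Nat.card (Matrix (Fin 2) (Fin 2) (ZMod m))ˣ with hk
  have hk0 : 0 < k := Nat.card_pos
  have hpow : ∀ u, ρ u ^ (k - 1) * ρ u = 1 := by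
    intro u
    obtain ⟨x, hx⟩ := hunit u
    rw [← pow_succ, Nat.sub_add_cancel hk0, ← hx, ← Units.val_pow_eq_pow_val, hk,
      pow_card_eq_one', Units.val_one]
  -- representatives
  let r : Matrix (Fin 2) (Fin 2) (ZMod m) → List ℕ := fun h =>
    if hh : ∃ u, Word a b u ∧ ρ u = h then hh.choose else []
  have hr : ∀ h, (∃ u, Word a b u ∧ ρ u = h) → Word a b (r h) ∧ ρ (r h) = h := by
    intro h hh
    have : r h = hh.choose := dif_pos hh
    rw [this]
    exact hh.choose_spec
  let v : Matrix (Fin 2) (Fin 2) (ZMod m) → List ℕ := fun h =>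
    u0 ++ (List.replicate (k - 1) (r h)).flatten
  have hrw : ∀ h, Word a b (r h) := by
    intro h
    by_cases hh : ∃ u, Word a b u ∧ ρ u = h
    · exact (hr h hh).1
    · have : r h = [] := dif_neg hh
      rw [this]
      intro x hx
      simp at hx
  have hvw : ∀ h, Word a b (v h) := fun h => word_append hu0 (word_rep (hrw h) _)
  obtain ⟨C, hC⟩ : ∃ C : ℝ, ∀ h, 2 * (K (v h) : ℝ) ≤ C := by
    refine ⟨∑ h, 2 * (K (v h) : ℝ), fun h => ?_⟩
    refine Finset.single_le_sum (f := fun h => 2 * (K (v h) : ℝ)) (fun i _ => ?_)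
      (Finset.mem_univ h)
    have := K_pos (v i) (word_pos ha hb (hvw i))
    have : (1 : ℝ) ≤ K (v i) := by exact_mod_cast this
    linarith
  have hC2 : 2 ≤ C := by
    have h1 := hC 0
    have := K_pos (v 0) (word_pos ha hb (hvw 0))
    have : (1 : ℝ) ≤ K (v 0) := by exact_mod_cast this
    linarith
  have hC0 : 0 < C := by linarith
  have hN : 0 < (Fintype.card (Matrix (Fin 2) (Fin 2) (ZMod m)) : ℝ) := by
    exact_mod_cast Fintype.card_pos
  set N : ℝ := (Fintype.card (Matrix (Fin 2) (Fin 2) (ZMod m)) : ℝ) with hNdef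
  have hCs : 0 < C ^ (2 * s) := Real.rpow_pos_of_pos hC0 _
  refine ⟨c / (N * C ^ (2 * s)), by positivity, C, by linarith, fun R hR => ?_⟩
  have hRC : 1 ≤ R / C := by
    rw [le_div_iff₀ hC0]
    linarith
  obtain ⟨S', hS', hcard⟩ := hcount (R / C) hRC
  obtain ⟨h, -, hh⟩ := Finset.exists_le_card_fiber_of_nsmul_le_card_of_maps_to
    (s := S') (t := (Finset.univ : Finset (Matrix (Fin 2) (Fin 2) (ZMod m)))) (f := ρ)
    (b := (S'.card : ℝ) / N) (fun _ _ => Finset.mem_univ _) ⟨0, Finset.mem_univ _⟩ (by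
      rw [nsmul_eq_mul, Finset.card_univ, ← hNdef, mul_div_cancel₀ _ hN.ne'])
  refine ⟨(S'.filter (fun x => ρ x = h)).image (fun u => v h ++ u), ?_, ?_⟩
  · intro w hw
    obtain ⟨u, hu, rfl⟩ := Finset.mem_image.1 hw
    obtain ⟨hu1, hu2⟩ := Finset.mem_filter.1 hu
    obtain ⟨huw, huK⟩ := hS' u hu1
    obtain ⟨-, hrh⟩ := hr h ⟨u, huw, hu2⟩
    refine ⟨word_append (hvw h) huw, ?_, ?_⟩
    · have h1 := K_append (v h) u (word_pos ha hb (hvw h)) (word_pos ha hb huw)
      have h1' : (K (v h ++ u) : ℝ) ≤ 2 * K (v h) * K u := by exact_mod_cast h1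
      have h2 := K_pos u (word_pos ha hb huw)
      have h2' : (1 : ℝ) ≤ K u := by exact_mod_cast h2
      calc (K (v h ++ u) : ℝ) ≤ 2 * K (v h) * K u := h1'
        _ ≤ C * (R / C) := mul_le_mul (hC h) huK (by linarith) hC0.le
        _ = R := mul_div_cancel₀ _ hC0.ne'
    · have h3 : ρ (v h ++ u) = ρ u0 := by
        have h4 : ρ (List.replicate (k - 1) (r h)).flatten = ρ u ^ (k - 1) := by
          change (Int.castRingHom (ZMod m)).mapMatrix (M _) = _
          rw [M_rep, map_pow, hu2]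
          exact congrArg (fun x => x ^ (k - 1)) hrh
        rw [hρ, hρ, h4, mul_assoc, hpow, mul_one]
      intro i j
      have h5 := congrFun (congrFun h3 i) j
      have h6 : ((M (v h ++ u) i j : ℤ) : ZMod m) = ((M u0 i j : ℤ) : ZMod m) := h5
      exact (ZMod.intCast_eq_intCast_iff_dvd_sub _ _ _).1 h6.symm
  · rw [Finset.card_image_of_injective _ (List.append_right_injective _)]
    refine le_trans ?_ hh
    rw [Real.div_rpow (by linarith) hC0.le] at hcard
    calc c / (N * C ^ (2 * s)) * R ^ (2 * s) = c * (R ^ (2 * s) / C ^ (2 * s)) / N := by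
          field_simp
      _ ≤ S'.card / N := by gcongr

end Pool.Agent.Helper58.QF
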